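import Mathlib
import Pool.Agent.GE2.Push
import Pool.Agent.GE2.Game4
import Pool.Agent.GE2.T3
import Pool.Agent.GE2.Star

set_option autoImplicit false

namespace Pool.Agent.Results.MP_b6b17e_al.ElementaryFactors

open LaurentPolynomial

/-- The ring `ℤ[t, t⁻¹]`. -/
abbrev R : Type := LaurentPolynomial ℤ

/-- The elementary matrices: `1` on the diagonal and one off-diagonal entry `0`. -/
def Elementary (M : Matrix (Fin 2) (Fin 2) R) : Prop :=
  ∃ a : R, M = !![1, a; 0, 1] ∨ M = !![1, 0; a, 1]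

/-- The eight elementary matrices `e₁₂(1)`, `e₁₂(-1)`, `e₁₂(t)`, `e₁₂(-t)`, `e₂₁(1)`,
`e₂₁(-1)`, `e₂₁(t⁻¹)` and `e₂₁(-t⁻¹)`. -/
def eightMatrices : Set (Matrix (Fin 2) (Fin 2) R) :=
  {!![1, 1; 0, 1], !![1, -1; 0, 1], !![1, T 1; 0, 1], !![1, -T 1; 0, 1],
    !![1, 0; 1, 1], !![1, 0; -1, 1], !![1, 0; T (-1), 1], !![1, 0; -T (-1), 1]}

/-- The theorem proved beside the frozen statement, in its closure form. -/
theorem closure_top :
    Subgroup.closure
      {g : Matrix.GeneralLinearGroup (Fin 2) (LaurentPolynomial ℤ) |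
        (∃ i j : Fin 2, ∃ c : LaurentPolynomial ℤ, i ≠ j ∧
            (g : Matrix (Fin 2) (Fin 2) (LaurentPolynomial ℤ)) = Matrix.transvection i j c) ∨
        (∃ d : Fin 2 → (LaurentPolynomial ℤ)ˣ,
            (g : Matrix (Fin 2) (Fin 2) (LaurentPolynomial ℤ)) =
              Matrix.diagonal (fun k => (d k : LaurentPolynomial ℤ)))} = ⊤ :=
  Pool.Agent.GE2.final_of Pool.Agent.GE2.low_red Pool.Agent.GE2.exists_red Pool.Agent.GE2.star
    Pool.Agent.GE2.lev_ne_zero Pool.Agent.GE2.Cn_std Pool.Agent.GE2.red_conn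
    (fun _ => Pool.Agent.GE2.no_prob)

/-! ### The submonoid of products of elementary matrices -/

/-- The products of elementary matrices. -/
noncomputable def EM : Submonoid (Matrix (Fin 2) (Fin 2) R) :=
  Submonoid.closure {M | Elementary M}

theorem e12_mem (a : R) : (!![1, a; 0, 1] : Matrix (Fin 2) (Fin 2) R) ∈ EM :=
  Submonoid.subset_closure ⟨a, Or.inl rfl⟩

theorem e21_mem (a : R) : (!![1, 0; a, 1] : Matrix (Fin 2) (Fin 2) R) ∈ EM :=
  Submonoid.subset_closure ⟨a, Or.inr rfl⟩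

/-- The factorisation of `diag(u, v)` with `u v = 1` into six elementary matrices. -/
theorem diag_eq {S : Type*} [CommRing S] (u v : S) (h : u * v = 1) :
    (!![u, 0; 0, v] : Matrix (Fin 2) (Fin 2) S) =
      !![1, u; 0, 1] * !![1, 0; -v, 1] * !![1, u; 0, 1] *
        (!![1, -1; 0, 1] * !![1, 0; 1, 1] * !![1, -1; 0, 1]) := by
  rw [Matrix.mul_fin_two, Matrix.mul_fin_two, Matrix.mul_fin_two, Matrix.mul_fin_two,
    Matrix.mul_fin_two]
  congr 1
  ext i j
  fin_cases i <;> fin_cases j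
  all_goals simp
  · linear_combination (-u) * h
  · linear_combination (-1 : S) * h
  · linear_combination (1 : S) * h

theorem diag_mem (u v : R) (h : u * v = 1) :
    (!![u, 0; 0, v] : Matrix (Fin 2) (Fin 2) R) ∈ EM := by
  rw [diag_eq u v h]
  exact mul_mem (mul_mem (mul_mem (e12_mem _) (e21_mem _)) (e12_mem _))
    (mul_mem (mul_mem (e12_mem _) (e21_mem _)) (e12_mem _))

/-- Conjugation by `diag(1, u)` preserves the products of elementary matrices. -/
theorem conj_mem (u v : R) (h : u * v = 1) (N : Matrix (Fin 2) (Fin 2) R) (hN : N ∈ EM) :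
    ∃ N' ∈ EM, !![1, 0; 0, u] * N = N' * !![1, 0; 0, u] := by
  induction hN using Submonoid.closure_induction with
  | mem M hM =>
    obtain ⟨a, rfl | rfl⟩ := hM
    · refine ⟨!![1, a * v; 0, 1], e12_mem _, ?_⟩
      rw [Matrix.mul_fin_two, Matrix.mul_fin_two]
      congr 1
      ext i j
      fin_cases i <;> fin_cases j
      all_goals simp
      rw [mul_assoc, mul_comm v u, h, mul_one]
    · refine ⟨!![1, 0; u * a, 1], e21_mem _, ?_⟩
      rw [Matrix.mul_fin_two, Matrix.mul_fin_two]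
      congr 1
      ext i j
      fin_cases i <;> fin_cases j
      all_goals simp
  | one => exact ⟨1, one_mem _, by simp⟩
  | mul x y _ _ hx hy =>
    obtain ⟨x', hx', ex⟩ := hx
    obtain ⟨y', hy', ey⟩ := hy
    refine ⟨x' * y', mul_mem hx' hy', ?_⟩
    rw [← mul_assoc, ex, mul_assoc, ey, mul_assoc]

/-- Products of elementary matrices have inverses of the same form. -/
theorem inv_mem (N : Matrix (Fin 2) (Fin 2) R) (hN : N ∈ EM) :
    ∃ N' ∈ EM, N * N' = 1 := by
  induction hN using Submonoid.closure_induction with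
  | mem M hM =>
    obtain ⟨a, rfl | rfl⟩ := hM
    · refine ⟨!![1, -a; 0, 1], e12_mem _, ?_⟩
      rw [Matrix.mul_fin_two]
      ext i j
      fin_cases i <;> fin_cases j
      all_goals simp
    · refine ⟨!![1, 0; -a, 1], e21_mem _, ?_⟩
      rw [Matrix.mul_fin_two]
      ext i j
      fin_cases i <;> fin_cases j
      all_goals simp
  | one => exact ⟨1, one_mem _, by simp⟩
  | mul x y _ _ hx hy =>
    obtain ⟨x', hx', ex⟩ := hx
    obtain ⟨y', hy', ey⟩ := hy
    refine ⟨y' * x', mul_mem hy' hx', ?_⟩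
    calc x * y * (y' * x') = x * (y * y') * x' := by simp only [mul_assoc]
      _ = 1 := by rw [ey, mul_one, ex]

theorem det_EM (N : Matrix (Fin 2) (Fin 2) R) (hN : N ∈ EM) : N.det = 1 := by
  induction hN using Submonoid.closure_induction with
  | mem M hM =>
    obtain ⟨a, rfl | rfl⟩ := hM
    · rw [Matrix.det_fin_two_of]; ring
    · rw [Matrix.det_fin_two_of]; ring
  | one => exact Matrix.det_one
  | mul x y _ _ hx hy => rw [Matrix.det_mul, hx, hy, mul_one]

/-- The matrices of the form `N diag(1, u)`. -/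
def Good (M : Matrix (Fin 2) (Fin 2) R) : Prop :=
  ∃ N ∈ EM, ∃ u v : R, u * v = 1 ∧ M = N * !![1, 0; 0, u]

theorem good_mul {M M' : Matrix (Fin 2) (Fin 2) R} (h : Good M) (h' : Good M') :
    Good (M * M') := by
  obtain ⟨N, hN, u, v, huv, rfl⟩ := h
  obtain ⟨N', hN', u', v', huv', rfl⟩ := h'
  obtain ⟨N'', hN'', e⟩ := conj_mem u v huv N' hN'
  refine ⟨N * N'', mul_mem hN hN'', u * u', v * v', ?_, ?_⟩
  · calc u * u' * (v * v') = (u * v) * (u' * v') := by ring
      _ = 1 := by rw [huv, huv', mul_one]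
  · have e2 : (!![1, 0; 0, u * u'] : Matrix (Fin 2) (Fin 2) R) = !![1, 0; 0, u] * !![1, 0; 0, u'] := by
      rw [Matrix.mul_fin_two]; simp
    calc N * !![1, 0; 0, u] * (N' * !![1, 0; 0, u']) =
        N * (!![1, 0; 0, u] * N') * !![1, 0; 0, u'] := by simp only [mul_assoc]
      _ = N * N'' * (!![1, 0; 0, u] * !![1, 0; 0, u']) := by rw [e]; simp only [mul_assoc]
      _ = _ := by rw [e2]

theorem good_inv {M M' : Matrix (Fin 2) (Fin 2) R} (h : Good M) (e : M * M' = 1) :
    Good M' := by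
  obtain ⟨N, hN, u, v, huv, rfl⟩ := h
  obtain ⟨N', hN', e'⟩ := inv_mem N hN
  have hvu : v * u = 1 := by rw [mul_comm]; exact huv
  obtain ⟨N'', hN'', e''⟩ := conj_mem v u hvu N' hN'
  refine ⟨N'', hN'', v, u, hvu, ?_⟩
  rw [← e'']
  have hd : (!![1, 0; 0, v] : Matrix (Fin 2) (Fin 2) R) * !![1, 0; 0, u] = 1 := by
    rw [Matrix.mul_fin_two]
    ext i j
    fin_cases i <;> fin_cases j
    all_goals simp [hvu]
  have hN'N : N' * N = 1 := mul_eq_one_comm.1 e'
  calc M' = (!![1, 0; 0, v] * (N' * N) * !![1, 0; 0, u]) * M' := by rw [hN'N, mul_one, hd, one_mul]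
    _ = !![1, 0; 0, v] * N' * (N * !![1, 0; 0, u] * M') := by simp only [mul_assoc]
    _ = _ := by rw [e, mul_one]

theorem good_gl (g : Matrix.GeneralLinearGroup (Fin 2) R) :
    Good (g : Matrix (Fin 2) (Fin 2) R) := by
  have hg : g ∈ Subgroup.closure
      {g : Matrix.GeneralLinearGroup (Fin 2) (LaurentPolynomial ℤ) |
        (∃ i j : Fin 2, ∃ c : LaurentPolynomial ℤ, i ≠ j ∧
            (g : Matrix (Fin 2) (Fin 2) (LaurentPolynomial ℤ)) = Matrix.transvection i j c) ∨
        (∃ d : Fin 2 → (LaurentPolynomial ℤ)ˣ,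
            (g : Matrix (Fin 2) (Fin 2) (LaurentPolynomial ℤ)) =
              Matrix.diagonal (fun k => (d k : LaurentPolynomial ℤ)))} := by
    rw [closure_top]; exact Subgroup.mem_top g
  induction hg using Subgroup.closure_induction with
  | mem x hx =>
    rcases hx with ⟨i, j, c, hij, e⟩ | ⟨d, e⟩
    · rw [e]
      have hone : (!![1, 0; 0, 1] : Matrix (Fin 2) (Fin 2) R) = 1 := by
        ext i j
        fin_cases i <;> fin_cases j
        all_goals simp
      fin_cases i <;> fin_cases j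
      · exact absurd rfl hij
      · refine ⟨!![1, c; 0, 1], e12_mem c, 1, 1, mul_one 1, ?_⟩
        rw [hone, mul_one]
        ext a b
        fin_cases a <;> fin_cases b
        all_goals simp [Matrix.transvection, Matrix.single]
      · refine ⟨!![1, 0; c, 1], e21_mem c, 1, 1, mul_one 1, ?_⟩
        rw [hone, mul_one]
        ext a b
        fin_cases a <;> fin_cases b
        all_goals simp [Matrix.transvection, Matrix.single]
      · exact absurd rfl hij
    · rw [e]
      refine ⟨!![((d 0 : Rˣ) : R), 0; 0, (((d 0)⁻¹ : Rˣ) : R)], diag_mem _ _ (by simp),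
        (d 0 : R) * (d 1 : R), (((d 0)⁻¹ : Rˣ) : R) * (((d 1)⁻¹ : Rˣ) : R), ?_, ?_⟩
      · calc ((d 0 : Rˣ) : R) * (d 1 : R) * ((((d 0)⁻¹ : Rˣ) : R) * (((d 1)⁻¹ : Rˣ) : R)) =
            ((d 0 : Rˣ) : R) * (((d 0)⁻¹ : Rˣ) : R) * (((d 1 : Rˣ) : R) * (((d 1)⁻¹ : Rˣ) : R)) := by
              ring
          _ = 1 := by simp
      · rw [Matrix.mul_fin_two]
        ext a b
        fin_cases a <;> fin_cases b
        all_goals simp
  | one =>
    refine ⟨1, one_mem _, 1, 1, mul_one 1, ?_⟩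
    ext a b
    fin_cases a <;> fin_cases b
    all_goals simp
  | mul x y _ _ hx hy => exact good_mul hx hy
  | inv x _ hx => exact good_inv hx (by rw [← Units.val_mul, mul_inv_cancel, Units.val_one])

/-! ### Eight matrices suffice -/

/-- The products of the eight matrices. -/
noncomputable def SM : Submonoid (Matrix (Fin 2) (Fin 2) R) := Submonoid.closure eightMatrices

theorem s1 : (!![1, 1; 0, 1] : Matrix (Fin 2) (Fin 2) R) ∈ SM :=
  Submonoid.subset_closure (by simp [eightMatrices])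
theorem s2 : (!![1, -1; 0, 1] : Matrix (Fin 2) (Fin 2) R) ∈ SM :=
  Submonoid.subset_closure (by simp [eightMatrices])
theorem s3 : (!![1, T 1; 0, 1] : Matrix (Fin 2) (Fin 2) R) ∈ SM :=
  Submonoid.subset_closure (by simp [eightMatrices])
theorem s4 : (!![1, -T 1; 0, 1] : Matrix (Fin 2) (Fin 2) R) ∈ SM :=
  Submonoid.subset_closure (by simp [eightMatrices])
theorem s5 : (!![1, 0; 1, 1] : Matrix (Fin 2) (Fin 2) R) ∈ SM :=
  Submonoid.subset_closure (by simp [eightMatrices])
theorem s6 : (!![1, 0; -1, 1] : Matrix (Fin 2) (Fin 2) R) ∈ SM :=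
  Submonoid.subset_closure (by simp [eightMatrices])
theorem s7 : (!![1, 0; T (-1), 1] : Matrix (Fin 2) (Fin 2) R) ∈ SM :=
  Submonoid.subset_closure (by simp [eightMatrices])
theorem s8 : (!![1, 0; -T (-1), 1] : Matrix (Fin 2) (Fin 2) R) ∈ SM :=
  Submonoid.subset_closure (by simp [eightMatrices])

theorem sD : (!![T 1, 0; 0, T (-1)] : Matrix (Fin 2) (Fin 2) R) ∈ SM := by
  rw [diag_eq (T 1 : R) (T (-1)) (by rw [← T_add]; simp)]
  exact mul_mem (mul_mem (mul_mem s3 s8) s3) (mul_mem (mul_mem s2 s5) s2)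

/-- A second factorisation of `diag(v, u)`. -/
theorem diag_eq' {S : Type*} [CommRing S] (u v : S) (h : u * v = 1) :
    (!![v, 0; 0, u] : Matrix (Fin 2) (Fin 2) S) =
      !![1, 1; 0, 1] * !![1, 0; -1, 1] * !![1, 1; 0, 1] *
        (!![1, -u; 0, 1] * !![1, 0; v, 1] * !![1, -u; 0, 1]) := by
  rw [Matrix.mul_fin_two, Matrix.mul_fin_two, Matrix.mul_fin_two, Matrix.mul_fin_two,
    Matrix.mul_fin_two]
  congr 1
  ext i j
  fin_cases i <;> fin_cases j
  all_goals simp
  · linear_combination (1 : S) * h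
  · linear_combination (-1 : S) * h
  · linear_combination (-u) * h

theorem sD' : (!![T (-1), 0; 0, T 1] : Matrix (Fin 2) (Fin 2) R) ∈ SM := by
  rw [diag_eq' (T 1 : R) (T (-1)) (by rw [← T_add]; simp)]
  exact mul_mem (mul_mem (mul_mem s1 s6) s1) (mul_mem (mul_mem s4 s7) s4)

theorem sT_nat (n : ℕ) : (!![T (n : ℤ), 0; 0, T (-(n : ℤ))] : Matrix (Fin 2) (Fin 2) R) ∈ SM ∧
    (!![T (-(n : ℤ)), 0; 0, T (n : ℤ)] : Matrix (Fin 2) (Fin 2) R) ∈ SM := by
  induction n with
  | zero =>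
    have : (!![T ((0 : ℕ) : ℤ), 0; 0, T (-((0 : ℕ) : ℤ))] : Matrix (Fin 2) (Fin 2) R) = 1 := by
      ext a b
      fin_cases a <;> fin_cases b
      all_goals simp
    have h2 : (!![T (-((0 : ℕ) : ℤ)), 0; 0, T ((0 : ℕ) : ℤ)] : Matrix (Fin 2) (Fin 2) R) = 1 := by
      ext a b
      fin_cases a <;> fin_cases b
      all_goals simp
    rw [this, h2]
    exact ⟨one_mem _, one_mem _⟩
  | succ n ih =>
    have e1 : (T ((n + 1 : ℕ) : ℤ) : R) = T (n : ℤ) * T 1 := by rw [← T_add]; push_cast; rfl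
    have e2 : (T (-((n + 1 : ℕ) : ℤ)) : R) = T (-(n : ℤ)) * T (-1) := by
      rw [← T_add]; push_cast; rw [neg_add]
    rw [e1, e2]
    constructor
    · have : (!![T (n : ℤ) * T 1, 0; 0, T (-(n : ℤ)) * T (-1)] : Matrix (Fin 2) (Fin 2) R) =
          !![T (n : ℤ), 0; 0, T (-(n : ℤ))] * !![T 1, 0; 0, T (-1)] := by
        rw [Matrix.mul_fin_two]
        simp only [mul_zero, zero_mul, add_zero, zero_add]
      rw [this]
      exact mul_mem ih.1 sD
    · have : (!![T (-(n : ℤ)) * T (-1), 0; 0, T (n : ℤ) * T 1] : Matrix (Fin 2) (Fin 2) R) =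
          !![T (-(n : ℤ)), 0; 0, T (n : ℤ)] * !![T (-1), 0; 0, T 1] := by
        rw [Matrix.mul_fin_two]
        simp only [mul_zero, zero_mul, add_zero, zero_add]
      rw [this]
      exact mul_mem ih.2 sD'

theorem sT (k : ℤ) : (!![T k, 0; 0, T (-k)] : Matrix (Fin 2) (Fin 2) R) ∈ SM := by
  obtain ⟨n, rfl | rfl⟩ := Int.eq_nat_or_neg k
  · exact (sT_nat n).1
  · rw [neg_neg]
    exact (sT_nat n).2

/-- Multiplication of the entry by `t²ᵏ`. -/
theorem s12_shift (k : ℤ) (a : R) (ha : (!![1, a; 0, 1] : Matrix (Fin 2) (Fin 2) R) ∈ SM) :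
    (!![1, T (k + k) * a; 0, 1] : Matrix (Fin 2) (Fin 2) R) ∈ SM := by
  have hT : (T k : R) * T (-k) = 1 := by rw [← T_add, add_neg_cancel, T_zero]
  have hT' : (T (-k) : R) * T k = 1 := by rw [← T_add, neg_add_cancel, T_zero]
  have : (!![1, T (k + k) * a; 0, 1] : Matrix (Fin 2) (Fin 2) R) =
      !![T k, 0; 0, T (-k)] * !![1, a; 0, 1] * !![T (-k), 0; 0, T (-(-k))] := by
    rw [Matrix.mul_fin_two, Matrix.mul_fin_two, neg_neg]
    simp only [mul_zero, zero_mul, add_zero, zero_add, mul_one, hT, hT']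
    have e : (T (k + k) : R) * a = T k * a * T k := by rw [T_add]; ring
    rw [e]
  rw [this]
  exact mul_mem (mul_mem (sT k) ha) (sT (-k))

theorem s12T (k : ℤ) : (!![1, T k; 0, 1] : Matrix (Fin 2) (Fin 2) R) ∈ SM ∧
    (!![1, -T k; 0, 1] : Matrix (Fin 2) (Fin 2) R) ∈ SM := by
  obtain ⟨m, rfl | rfl⟩ := Int.even_or_odd' k
  · have e : (2 * m : ℤ) = m + m := by ring
    rw [e]
    constructor
    · have := s12_shift m 1 s1
      rwa [mul_one] at this
    · have := s12_shift m (-1) s2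
      rwa [mul_neg, mul_one] at this
  · have e : (T (2 * m + 1) : R) = T (m + m) * T 1 := by rw [← T_add]; congr 1; ring
    rw [e]
    constructor
    · exact s12_shift m _ s3
    · have := s12_shift m _ s4
      rwa [mul_neg] at this

theorem s12_add (a b : R) (ha : (!![1, a; 0, 1] : Matrix (Fin 2) (Fin 2) R) ∈ SM)
    (hb : (!![1, b; 0, 1] : Matrix (Fin 2) (Fin 2) R) ∈ SM) :
    (!![1, a + b; 0, 1] : Matrix (Fin 2) (Fin 2) R) ∈ SM := by
  have : (!![1, a + b; 0, 1] : Matrix (Fin 2) (Fin 2) R) = !![1, a; 0, 1] * !![1, b; 0, 1] := by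
    rw [Matrix.mul_fin_two]; simp [add_comm]
  rw [this]
  exact mul_mem ha hb

theorem s12 (a : R) : (!![1, a; 0, 1] : Matrix (Fin 2) (Fin 2) R) ∈ SM := by
  have h0 : (!![1, 0; 0, 1] : Matrix (Fin 2) (Fin 2) R) ∈ SM := by
    have : (!![1, 0; 0, 1] : Matrix (Fin 2) (Fin 2) R) = 1 := by
      ext a b
      fin_cases a <;> fin_cases b
      all_goals simp
    rw [this]
    exact one_mem _
  have hnat : ∀ (n : ℕ) (k : ℤ), (!![1, (n : R) * T k; 0, 1] : Matrix (Fin 2) (Fin 2) R) ∈ SM ∧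
      (!![1, -((n : R) * T k); 0, 1] : Matrix (Fin 2) (Fin 2) R) ∈ SM := by
    intro n k
    induction n with
    | zero => simpa using h0
    | succ n ih =>
      constructor
      · have e : ((n + 1 : ℕ) : R) * T k = (n : R) * T k + T k := by push_cast; ring
        rw [e]
        exact s12_add _ _ ih.1 (s12T k).1
      · have e : -(((n + 1 : ℕ) : R) * T k) = -((n : R) * T k) + -T k := by push_cast; ring
        rw [e]
        exact s12_add _ _ ih.2 (s12T k).2
  induction a using LaurentPolynomial.induction_on' with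
  | add p q hp hq => exact s12_add _ _ hp hq
  | C_mul_T n c =>
    have hC : (C c : R) = ((c : ℤ) : R) := by simp
    obtain ⟨m, rfl | rfl⟩ := Int.eq_nat_or_neg c
    · rw [hC]
      have := (hnat m n).1
      simpa using this
    · rw [hC]
      have := (hnat m n).2
      simpa using this

/-- The Weyl element and its inverse. -/
theorem s_weyl : (!![0, 1; -1, 0] : Matrix (Fin 2) (Fin 2) R) ∈ SM ∧
    (!![0, -1; 1, 0] : Matrix (Fin 2) (Fin 2) R) ∈ SM := by
  constructor
  · have : (!![0, 1; -1, 0] : Matrix (Fin 2) (Fin 2) R) =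
        !![1, 1; 0, 1] * !![1, 0; -1, 1] * !![1, 1; 0, 1] := by
      rw [Matrix.mul_fin_two, Matrix.mul_fin_two]; simp
    rw [this]
    exact mul_mem (mul_mem s1 s6) s1
  · have : (!![0, -1; 1, 0] : Matrix (Fin 2) (Fin 2) R) =
        !![1, -1; 0, 1] * !![1, 0; 1, 1] * !![1, -1; 0, 1] := by
      rw [Matrix.mul_fin_two, Matrix.mul_fin_two]; simp
    rw [this]
    exact mul_mem (mul_mem s2 s5) s2

theorem s21 (a : R) : (!![1, 0; a, 1] : Matrix (Fin 2) (Fin 2) R) ∈ SM := by
  have : (!![1, 0; a, 1] : Matrix (Fin 2) (Fin 2) R) =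
      !![0, 1; -1, 0] * !![1, -a; 0, 1] * !![0, -1; 1, 0] := by
    rw [Matrix.mul_fin_two, Matrix.mul_fin_two]; simp
  rw [this]
  exact mul_mem (mul_mem s_weyl.1 (s12 _)) s_weyl.2

theorem EM_le_SM : EM ≤ SM := by
  refine Submonoid.closure_le.2 ?_
  rintro M ⟨a, rfl | rfl⟩
  · exact s12 a
  · exact s21 a

/-- Every `2 × 2` matrix `A` over `ℤ[t, t⁻¹]` whose determinant is a unit is a product of
matrices from the list `e₁₂(±1)`, `e₁₂(±t)`, `e₂₁(±1)`, `e₂₁(±t⁻¹)`, times the diagonal matrix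
`diag(1, det A)`. -/
theorem result (A : Matrix (Fin 2) (Fin 2) (LaurentPolynomial ℤ)) (hA : IsUnit A.det) :
    ∃ L : List (Matrix (Fin 2) (Fin 2) (LaurentPolynomial ℤ)),
      (∀ M ∈ L, M ∈ eightMatrices) ∧ A = L.prod * !![1, 0; 0, A.det] := by
  obtain ⟨d, hd⟩ := hA
  obtain ⟨N, hN, u, v, huv, e⟩ : Good A := by
    have h := good_gl (Matrix.GeneralLinearGroup.mk'' A ⟨d, hd⟩)
    exact h
  have hdet : A.det = u := by
    rw [e, Matrix.det_mul, det_EM N hN, Matrix.det_fin_two_of]; ring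
  obtain ⟨L, hL, hp⟩ := Submonoid.exists_list_of_mem_closure (EM_le_SM hN)
  refine ⟨L, hL, ?_⟩
  rw [hp, hdet]
  exact e

end Pool.Agent.Results.MP_b6b17e_al.ElementaryFactors
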